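import Pool.Agent.Helper38.ND.GoalsC
import Pool.Agent.Helper11.PB.Gen
import Pool.Agent.Helper42.PB.LAB
import Pool.Agent.Helper42.PB.SEL

/-!
# Project ND (MP_fc6b1e_nt), natural density: from the labels to the classes, general form

The statement `N_MOMW` of `Pool/Agent/Helper38/ND/GoalsC.lean`. The proof is adapted from
`Pool/Agent/Helper11/PP/Core.lean` and `Pool/Agent/Helper11/PB/Gen.lean`.
-/

set_option autoImplicit false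

namespace Pool.Agent.Helper86.ND

open NumberField Polynomial Module IsDedekindDomain TensorProduct
open Pool.Agent.Helper51.RP Pool.Agent.Helper42.RD Pool.Agent.Helper42.PP Pool.Agent.Helper42.PP1
open Pool.Agent.Helper51.SigLeo Pool.Agent.Helper11.LE Pool.Agent.Helper11.PP
open Pool.Agent.Helper17.PP (Sys)
open Pool.Agent.Helper17.PP0 (Hyp₀)
open Pool.Agent.Helper42.PB
open Pool.Agent.Helper11.PB (BdB)
open Pool.Agent.Helper38.ND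
open Pool.Agent.Helper79.PP (clp_eq clp_one clp_mul clp_pow clp_eq_one nice_val)
open Pool.Agent.Helper15.PP (gZ mem_gZ)

/-- Subsets of a subtype. -/
theorem sub_set {α : Type} {P : α → Prop} {f : α → ℕ} {X : ℝ} :
    {b | P b ∧ (f b : ℝ) ≤ X} = Subtype.val '' {b : {b : α // P b} | (f b.1 : ℝ) ≤ X} := by
  ext b
  constructor
  · rintro ⟨h1, h2⟩
    exact ⟨⟨b, h1⟩, h2, rfl⟩
  · rintro ⟨c, h1, rfl⟩
    exact ⟨c.2, h1⟩

theorem sub_set2 {α : Type} {P Q : α → Prop} {f : α → ℕ} {X : ℝ} :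
    {b | P b ∧ Q b ∧ (f b : ℝ) ≤ X} = Subtype.val '' {b : {b : α // P b} |
      b ∈ {b : {b : α // P b} | Q b.1} ∧ (f b.1 : ℝ) ≤ X} := by
  ext b
  constructor
  · rintro ⟨h1, h2, h3⟩
    exact ⟨⟨b, h1⟩, ⟨h2, h3⟩, rfl⟩
  · rintro ⟨c, ⟨h1, h2⟩, rfl⟩
    exact ⟨c.2, h1, h2⟩

theorem sub_fin {α : Type} {P : α → Prop} {f : α → ℕ} {X : ℝ}
    (h : {b | P b ∧ (f b : ℝ) ≤ X}.Finite) : {b : {b : α // P b} | (f b.1 : ℝ) ≤ X}.Finite := by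
  rw [sub_set] at h
  exact h.of_finite_image Subtype.val_injective.injOn

theorem sub_card {α : Type} {P : α → Prop} {f : α → ℕ} {X : ℝ} :
    {b : {b : α // P b} | (f b.1 : ℝ) ≤ X}.ncard = {b | P b ∧ (f b : ℝ) ≤ X}.ncard := by
  rw [sub_set, Set.ncard_image_of_injective _ Subtype.val_injective]

theorem sub_card2 {α : Type} {P Q : α → Prop} {f : α → ℕ} {X : ℝ} :
    {b : {b : α // P b} | b ∈ {b : {b : α // P b} | Q b.1} ∧ (f b.1 : ℝ) ≤ X}.ncard =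
      {b | P b ∧ Q b ∧ (f b : ℝ) ≤ X}.ncard := by
  rw [sub_set2, Set.ncard_image_of_injective _ Subtype.val_injective]

section core

variable {p : ℕ} [Fact p.Prime] {K M K₁ M₁ : Type} [Field K] [NumberField K] [Field M]
    [NumberField M] [Field K₁] [NumberField K₁] [Field M₁] [NumberField M₁] [Algebra K M]
    [Algebra K K₁] [Algebra K M₁] [Algebra M M₁] [Algebra K₁ M₁] {ε : K₁} {δ : M ≃ₐ[K] M}
    {P : (ZMod p)[X]} (B : Base p K M K₁ M₁ ε δ P)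

theorem coreN (hNLS : D_NLS) (hCND : D_CND) (hABS : N_ABS) (F₀ : Finset K₁ˣ)
    (hε : ∃ a : K₁, a ≠ 0 ∧ OmType p K ε a)
    (hF₀ : ∀ c ∈ F₀, OmType p K ε (c : K₁) ∧ NiceU p c)
    (huq : ∀ a : K₁ˣ, OmType p K ε (a : K₁) → NiceU p a →
      ∃! c, c ∈ F₀ ∧ LocS p (up K₁ B.S) (a / c))
    (Fam Bad : F₀ → Finset B.LP → Prop)
    (hfin : ∀ a : K₁ˣ, OmType p K ε (a : K₁) → (B.labs a).Finite)
    (hval1 : ∀ a : K₁ˣ, OmType p K ε (a : K₁) → ∀ v ∈ B.calP,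
      ∀ W : HeightOneSpectrum (𝓞 K₁), Above W v →
      ((p : ℤ) ∣ ordv W (a : K₁) ↔ ordp p (B.Q v) a = 0))
    (hval2 : ∀ a : K₁ˣ, OmType p K ε (a : K₁) → ∀ v ∉ B.S, v ∉ B.calP →
      ∀ W : HeightOneSpectrum (𝓞 K₁), Above W v → (p : ℤ) ∣ ordv W (a : K₁))
    (hfam : ∀ (τ : F₀) (a : K₁ˣ), OmType p K ε (a : K₁) → LocS p (up K₁ B.S) (a / τ) →
      Fam τ (B.lab a))
    (hex : ∀ (τ : F₀) (b : Finset B.LP), Fam τ b → ∃ a : K₁ˣ, OmType p K ε (a : K₁) ∧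
      LocS p (up K₁ B.S) (a / τ) ∧ B.lab a = b)
    (huni : ∀ (τ : F₀) (a a' : K₁ˣ), OmType p K ε (a : K₁) → OmType p K ε (a' : K₁) →
      LocS p (up K₁ B.S) (a / τ) → LocS p (up K₁ B.S) (a' / τ) → B.lab a = B.lab a' →
      Pw p (a / a'))
    (Bd : Set (ClP p K₁))
    (hbad : ∀ (τ : F₀) (a : K₁ˣ), clp p a ∈ Bd → OmType p K ε (a : K₁) →
      LocS p (up K₁ B.S) (a / τ) → Bad τ (B.lab a))
    (g : ℝ → ℝ) (Kc c X₁ θ : ℝ) (hc : 0 < c) (hθ : 0 ≤ θ) (hg : Slow g Kc)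
    (ha1 : ∀ τ : F₀, ∀ X : ℝ, 0 < X →
      {b : {b : Finset B.LP // Fam τ b} |
        ((∏ q ∈ b.1, Ideal.absNorm q.1.1.asIdeal : ℕ) : ℝ) ≤ X}.Finite ∧
      ({b : {b : Finset B.LP // Fam τ b} |
        ((∏ q ∈ b.1, Ideal.absNorm q.1.1.asIdeal : ℕ) : ℝ) ≤ X}.ncard : ℝ) ≤ Kc * (X * g X))
    (ha2 : ∀ τ : F₀, ∀ X : ℝ, 0 < X → X₁ ≤ X → c * (X * g X) ≤
      ({b : {b : Finset B.LP // Fam τ b} |
        ((∏ q ∈ b.1, Ideal.absNorm q.1.1.asIdeal : ℕ) : ℝ) ≤ X}.ncard : ℝ))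
    (ha3 : ∀ η : ℝ, 0 < η → ∃ X₀ : ℝ, ∀ τ : F₀, ∀ X : ℝ, X₀ ≤ X →
      ({b : {b : Finset B.LP // Fam τ b} | b ∈ {b : {b : Finset B.LP // Fam τ b} | Bad τ b.1} ∧
        ((∏ q ∈ b.1, Ideal.absNorm q.1.1.asIdeal : ℕ) : ℝ) ≤ X}.ncard : ℝ) ≤
      θ * ({b : {b : Finset B.LP // Fam τ b} |
        ((∏ q ∈ b.1, Ideal.absNorm q.1.1.asIdeal : ℕ) : ℝ) ≤ X}.ncard : ℝ) + η * (X * g X)) :
    MomN p K ε Bd θ := by
  classical
  have hp : p.Prime := Fact.out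
  -- the local conditions at `p`
  have hZp : {W : HeightOneSpectrum (𝓞 K₁) | (p : 𝓞 K₁) ∈ W.asIdeal} ⊆ up K₁ B.S := by
    intro W hW
    refine ⟨W.under (𝓞 K), B.abp _ ?_, rfl⟩
    have h1 : (p : 𝓞 K) ∈ (W.under (𝓞 K)).asIdeal := by
      change (p : 𝓞 K) ∈ W.asIdeal.comap (algebraMap (𝓞 K) (𝓞 K₁))
      rw [Ideal.mem_comap, map_natCast]
      exact hW
    have h2 := ((W.under (𝓞 K)).valuation_lt_one_iff_mem (K := K) (p : 𝓞 K)).2 h1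
    simpa using h2
  have hnice : ∀ a b : K₁ˣ, NiceU p b → LocS p (up K₁ B.S) (a / b) → NiceU p a := by
    intro a b hb hab
    rw [hNLS] at hb ⊢
    have h1 := (gZ p _).mul_mem (mem_gZ.2 (locS_mono hZp hab)) (mem_gZ.2 hb)
    rw [div_mul_cancel] at h1
    exact mem_gZ.1 h1
  -- representatives
  have hrep : ∀ c : ASet p K ε, ∃ a : K₁ˣ, clp p a = c.1 ∧ OmType p K ε (a : K₁) ∧ NiceU p a :=
    fun c => c.2.2
  choose ra hra1 hra2 hra3 using hrep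
  have hτ : ∀ c : ASet p K ε, ∃ τ : F₀, LocS p (up K₁ B.S) (ra c / τ) := by
    intro c
    obtain ⟨τ, ⟨h1, h2⟩, -⟩ := huq (ra c) (hra2 c) (hra3 c)
    exact ⟨⟨τ, h1⟩, h2⟩
  choose rt hrt using hτ
  have huq' : ∀ (a : K₁ˣ) (τ τ' : F₀), OmType p K ε (a : K₁) → NiceU p a →
      LocS p (up K₁ B.S) (a / τ) → LocS p (up K₁ B.S) (a / τ') → τ = τ' := by
    intro a τ τ' h1 h2 h3 h4
    obtain ⟨σ, -, h5⟩ := huq a h1 h2
    exact Subtype.ext ((h5 _ ⟨τ.2, h3⟩).trans (h5 _ ⟨τ'.2, h4⟩).symm)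
  let β : F₀ → Type := fun τ => {b : Finset B.LP // Fam τ b}
  let n : ∀ τ, β τ → ℕ := fun τ b => ∏ q ∈ b.1, Ideal.absNorm q.1.1.asIdeal
  let bad : ∀ τ, Set (β τ) := fun τ => {b | Bad τ b.1}
  let Φ : ASet p K ε → Σ τ, β τ := fun c =>
    ⟨rt c, ⟨B.lab (ra c), hfam (rt c) (ra c) (hra2 c) (hrt c)⟩⟩
  have hom1 : OmType p K ε ((1 : K₁ˣ) : K₁) := om_one hε
  have hnice1 : NiceU p (1 : K₁ˣ) := ⟨1, 1, by simp, by simp⟩
  obtain ⟨τ₁, ⟨hτ₁, hl1⟩, -⟩ := huq 1 hom1 hnice1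
  have hne : Nonempty F₀ := ⟨⟨τ₁, hτ₁⟩⟩
  have hΦ : Function.Injective Φ := by
    intro c c' h
    have h1 : rt c = rt c' := congrArg (fun x : Σ τ, β τ => x.1) h
    have h2 : B.lab (ra c) = B.lab (ra c') := congrArg (fun x : Σ τ, β τ => x.2.1) h
    have h3 := huni (rt c) (ra c) (ra c') (hra2 c) (hra2 c') (hrt c) (by rw [h1]; exact hrt c') h2
    apply Subtype.ext
    rw [← hra1 c, ← hra1 c']
    obtain ⟨y, hy⟩ := h3
    rw [eq_comm, clp_eq]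
    exact ⟨y, by rw [← hy, mul_div_cancel]⟩
  have hrange : (Set.range Φ)ᶜ.Finite := by
    let x₀ : Σ τ, β τ := ⟨⟨τ₁, hτ₁⟩, ⟨B.lab 1, hfam ⟨τ₁, hτ₁⟩ 1 hom1 hl1⟩⟩
    refine (Set.finite_singleton x₀).subset ?_
    rintro ⟨τ, ⟨b, hb⟩⟩ hx
    obtain ⟨a, ha1, ha2, ha3⟩ := hex τ b hb
    have ha4 : NiceU p a := hnice a τ (hF₀ τ τ.2).2 ha2
    have haP : Pw p a := by
      by_contra haP
      have hc : clp p a ∈ ASet p K ε := ⟨by rwa [Ne, clp_eq_one], a, rfl, ha1, ha4⟩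
      apply hx
      refine ⟨⟨clp p a, hc⟩, ?_⟩
      set c : ASet p K ε := ⟨clp p a, hc⟩ with hcdef
      obtain ⟨y, hy⟩ := clp_eq.1 (hra1 c).symm
      have h1 : LocS p (up K₁ B.S) (ra c / τ) := by
        have h2 := (gZ p _).mul_mem (mem_gZ.2 ha2)
          (mem_gZ.2 (locS_pow (p := p) (Z := up K₁ B.S) y))
        have h3 : ra c / (τ : K₁ˣ) = a / τ * y ^ p := by
          rw [hy, mul_div_right_comm]
        rw [h3]
        exact mem_gZ.1 h2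
      have h2 : rt c = τ := huq' (ra c) _ _ (hra2 c) (hra3 c) (hrt c) h1
      have h3 : B.lab (ra c) = b := by rw [hy, lab_mul_pow, ha3]
      subst h2
      subst h3
      rfl
    obtain ⟨y, hy⟩ := haP
    have h1 : B.lab a = B.lab 1 := by rw [hy, ← lab_mul_pow B 1 y, one_mul]
    have h2 : LocS p (up K₁ B.S) (1 / (τ : K₁ˣ)) := by
      have h3 := (gZ p _).mul_mem (mem_gZ.2 ha2)
        ((gZ p _).inv_mem (mem_gZ.2 (locS_pow (p := p) (Z := up K₁ B.S) y)))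
      have h4 : a / (τ : K₁ˣ) * (y ^ p)⁻¹ = 1 / τ := by
        rw [hy, div_eq_mul_inv, one_div, mul_right_comm, mul_inv_cancel, one_mul]
      rw [h4] at h3
      exact mem_gZ.1 h3
    have h3 : τ = ⟨τ₁, hτ₁⟩ := huq' 1 _ _ hom1 hnice1 h2 hl1
    have h4 : b = B.lab 1 := by rw [← ha3, h1]
    subst h3
    subst h4
    rfl
  have hcond : ∀ c : ASet p K ε,
      condC K c.1 = fT p B.S ((Φ c).1 : K₁ˣ) * n (Φ c).1 (Φ c).2 := by
    intro c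
    have h := hCND p K K₁ B.S B.calP B.Q (ra c) (rt c) (B.lab (ra c)) (fun v hv => hv.1) (hrt c)
      (hval1 (ra c) (hra2 c)) (fun v hv => (B.Qa v hv).1) (hval2 (ra c) (hra2 c))
      (Pool.Agent.Helper11.PP.mem_lab B (hfin (ra c) (hra2 c)))
    rw [hra1 c] at h
    exact h
  have hbd : ∀ c ∈ {c : ASet p K ε | c.1 ∈ Bd}, (Φ c).2 ∈ bad (Φ c).1 := by
    intro c hcB
    exact hbad (rt c) (ra c) (by rw [hra1 c]; exact hcB) (hra2 c) (hrt c)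
  obtain ⟨r1, ⟨C, X₀, hX₀, r2⟩, r3, r4⟩ := hABS F₀ β n bad (fun τ => fT p B.S (τ : K₁ˣ)) g Kc c
    X₁ θ (fun τ => fT_pos p B.S _) hc hθ hg ha1 ha2 ha3 (ASet p K ε) (fun c => condC K c.1)
    {c : ASet p K ε | c.1 ∈ Bd} Φ hΦ hrange hcond hbd
  have hset : ∀ X : ℝ, {c | c ∈ ASet p K ε ∧ (condC K c : ℝ) ≤ X} =
      Subtype.val '' {c : ASet p K ε | (condC K c.1 : ℝ) ≤ X} := by
    intro X
    ext c
    constructor
    · rintro ⟨h1, h2⟩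
      exact ⟨⟨c, h1⟩, h2, rfl⟩
    · rintro ⟨c, h1, rfl⟩
      exact ⟨c.2, h1⟩
  have hset2 : ∀ X : ℝ, {c | c ∈ ASet p K ε ∩ Bd ∧ (condC K c : ℝ) ≤ X} =
      Subtype.val '' {c : ASet p K ε | c ∈ {c : ASet p K ε | c.1 ∈ Bd} ∧
        (condC K c.1 : ℝ) ≤ X} := by
    intro X
    ext c
    constructor
    · rintro ⟨⟨h1, h3⟩, h2⟩
      exact ⟨⟨c, h1⟩, ⟨h3, h2⟩, rfl⟩
    · rintro ⟨c, ⟨h1, h2⟩, rfl⟩
      exact ⟨⟨c.2, h1⟩, h2⟩
  refine ⟨?_, ⟨C, X₀, hX₀, ?_⟩, ?_, ?_⟩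
  · intro X
    rw [hset]
    exact (r1 X).image _
  · intro X hX
    unfold cC
    rw [hset, hset, Set.ncard_image_of_injective _ Subtype.val_injective,
      Set.ncard_image_of_injective _ Subtype.val_injective]
    exact r2 X hX
  · exact Set.infinite_coe_iff.1 r3
  · intro η hη
    filter_upwards [r4 η hη] with X hX
    unfold cC
    rw [hset, hset2, Set.ncard_image_of_injective _ Subtype.val_injective,
      Set.ncard_image_of_injective _ Subtype.val_injective]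
    exact hX

end core

theorem momWN (hABS : N_ABS) (hLAB : V_LAB) (hSEL : V_SEL) {p : ℕ} [hpF : Fact p.Prime] (L : IwasawaLog p ℂ_[p])
    {K M K₁ M₁ J M₂ : Type} [Field K] [NumberField K] [Field M]
    [NumberField M] [Field K₁] [NumberField K₁] [Field M₁] [NumberField M₁] [Field J]
    [NumberField J] [Field M₂] [NumberField M₂] [Algebra K M] [Algebra K K₁] [Algebra K M₁]
    [Algebra M M₁] [Algebra K₁ M₁] [Algebra K J] [Algebra K M₂] [Algebra M M₂] [Algebra K₁ M₂]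
    [Algebra M₁ M₂] [Algebra J M₂] {ε : K₁} {δ : M ≃ₐ[K] M} {P : (ZMod p)[X]}
    [Fact (Irreducible P)] {a₀ : M₂ˣ} (hs : SitB p K M K₁ M₁ J M₂ ε δ P a₀)
    (T : Set (K →+* ℂ_[p])) (B : Base p K M K₁ M₁ ε δ P) (D : BaseB B a₀) (g : ℝ → ℝ) (K₀ : ℝ)
    (hslow : Slow g K₀) (θ : ℝ) (hθ : 0 ≤ θ) (n : ℕ)
    (hE : ∀ aτ : K₁ˣ, OmType p K ε (aτ : K₁) → NiceU p aτ →
      ∃ (E : TauB n B a₀ L T aτ) (Kc c X₁ : ℝ), 0 < c ∧
        AnaN (sysB B E.toTauF (Spl M₂ B.S) D.s0 aτ) g θ Kc c X₁) :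
    MomN p K ε (BdB L T P δ a₀) θ := by
  classical
  have hp : p.Prime := hpF.out
  have hprim := hs.sit.prim
  have := hs.sit.gK
  have := hs.sit.st2
  have := hs.sit.gMK
  have hG2 : IsGalois K₁ M₁ := IsGalois.tower_top_of_isGalois K K₁ M₁
  have hcop := hs.sit.c2
  have hTRF : E_TRF := Pool.Agent.Helper40.RD.e_trf
  have hTAU : D_TAU := Pool.Agent.Helper15.PP.d_tau Pool.Agent.Helper74.PP.p_lfi
  obtain ⟨F₀, hF₀, huq⟩ := hTAU p K₁ (up K₁ B.S) (up_finite B.S)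
    {a : K₁ˣ | OmType p K ε (a : K₁) ∧ NiceU p a}
  have hF₀1 : ∀ τ : F₀, OmType p K ε ((τ : K₁ˣ) : K₁) := fun τ => (hF₀ τ τ.2).1
  have hE' : ∀ τ : F₀, ∃ (E : TauB n B a₀ L T (τ : K₁ˣ)) (Kc c X₁ : ℝ), 0 < c ∧
      AnaN (sysB B E.toTauF (Spl M₂ B.S) D.s0 τ) g θ Kc c X₁ := fun τ =>
    hE τ (hF₀1 τ) (hF₀ τ τ.2).2
  choose E Kτ c X₁ hc hS using hE'
  have hL : ∀ τ : F₀, _ := fun τ => hLAB p ℂ_[p] L K M K₁ M₁ ε δ P hs.sit B τ n (E τ).toTauF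
    (Spl M₂ B.S) D.s0 (hF₀1 τ)
  obtain ⟨Kc, c', X', hKc, hc', hcc, hX'⟩ := common (fun τ : F₀ => max K₀ (Kτ τ)) c X₁ hc
  obtain ⟨τ₀⟩ : Nonempty F₀ := by
    have h1 : OmType p K ε ((1 : K₁ˣ) : K₁) := by
      intro σ
      have hε : (σ ε) ^ p = 1 := by rw [← map_pow, hprim.pow_eq_one, map_one]
      have : NeZero p := ⟨hp.ne_zero⟩
      obtain ⟨i, -, hi⟩ := hprim.eq_pow_of_pow_eq_one hε
      exact ⟨i, 1, hi.symm, by simp⟩
    obtain ⟨τ, ⟨h2, -⟩, -⟩ := huq 1 ⟨h1, 1, 1, by simp, by simp⟩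
    exact ⟨⟨τ, h2⟩⟩
  have hKc0 : Slow g Kc := slow_mono hslow ((le_max_left _ _).trans (hKc τ₀))
  have hval : ∀ W : HeightOneSpectrum (𝓞 K₁), ∃ W' : HeightOneSpectrum (𝓞 M₁), Above W' W ∧
      ∀ x : K₁, ((p : ℤ) ∣ ordv W' (algebraMap K₁ M₁ x) ↔ (p : ℤ) ∣ ordv W x) := by
    intro W
    obtain ⟨W', hW'⟩ := exists_above' (E := M₁) W
    exact ⟨W', hW', (hTRF p K₁ M₁ hcop W' W hW').1⟩
  have e1 : ∀ (τ : F₀) (X : ℝ), {b : {b : Finset B.LP //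
      (sysB B (E τ).toTauF (Spl M₂ B.S) D.s0 τ).Fam b} |
        ((∏ q ∈ b.1, Ideal.absNorm q.1.1.asIdeal : ℕ) : ℝ) ≤ X}.ncard =
      {b | (sysB B (E τ).toTauF (Spl M₂ B.S) D.s0 τ).Fam b ∧
        ((sysB B (E τ).toTauF (Spl M₂ B.S) D.s0 τ).nm b : ℝ) ≤ X}.ncard := fun τ X =>
    sub_card (P := fun b => (sysB B (E τ).toTauF (Spl M₂ B.S) D.s0 τ).Fam b)
      (f := (sysB B (E τ).toTauF (Spl M₂ B.S) D.s0 τ).nm)
  have e2 : ∀ (τ : F₀) (X : ℝ), {b : {b : Finset B.LP //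
      (sysB B (E τ).toTauF (Spl M₂ B.S) D.s0 τ).Fam b} |
        b ∈ {b : {b : Finset B.LP // (sysB B (E τ).toTauF (Spl M₂ B.S) D.s0 τ).Fam b} |
          (sysB B (E τ).toTauF (Spl M₂ B.S) D.s0 τ).Bad b.1} ∧
        ((∏ q ∈ b.1, Ideal.absNorm q.1.1.asIdeal : ℕ) : ℝ) ≤ X}.ncard =
      {b | (sysB B (E τ).toTauF (Spl M₂ B.S) D.s0 τ).Fam b ∧
        (sysB B (E τ).toTauF (Spl M₂ B.S) D.s0 τ).Bad b ∧
        ((sysB B (E τ).toTauF (Spl M₂ B.S) D.s0 τ).nm b : ℝ) ≤ X}.ncard := fun τ X =>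
    sub_card2 (P := fun b => (sysB B (E τ).toTauF (Spl M₂ B.S) D.s0 τ).Fam b)
      (Q := fun b => (sysB B (E τ).toTauF (Spl M₂ B.S) D.s0 τ).Bad b)
      (f := (sysB B (E τ).toTauF (Spl M₂ B.S) D.s0 τ).nm)
  exact coreN B Pool.Agent.Helper63.PP.d_nls Pool.Agent.Helper85.PP.d_cnd
    hABS F₀ ⟨((τ₀ : K₁ˣ) : K₁), (τ₀ : K₁ˣ).ne_zero, hF₀1 τ₀⟩
    (fun c hc => hF₀ c hc) (fun a h1 h2 => huq a ⟨h1, h2⟩)
    (fun τ b => (sysB B (E τ).toTauF (Spl M₂ B.S) D.s0 τ).Fam b)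
    (fun τ b => (sysB B (E τ).toTauF (Spl M₂ B.S) D.s0 τ).Bad b)
    (fun a ha => ((hL τ₀).1 a ha).1)
    (fun a ha v hv W hW => by
      obtain ⟨W', hW', hx⟩ := hval W
      rw [← hx]
      exact ((hL τ₀).1 a ha).2.1 v hv W' (above_trans hW hW'))
    (fun a ha v hv hv' W hW => by
      obtain ⟨W', hW', hx⟩ := hval W
      rw [← hx]
      exact ((hL τ₀).1 a ha).2.2.1 v hv hv' W' (above_trans hW hW'))
    (fun τ a ha hl => ((hL τ).1 a ha).2.2.2 hl)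
    (fun τ b hb => (hL τ).2.1 b hb)
    (fun τ a a' ha ha' hl hl' hlab => (hL τ).2.2.1 a a' ha ha' hl hl' hlab)
    (BdB L T P δ a₀)
    (fun τ a hcB ha hl => by
      obtain ⟨y, a₁, haa, hsel, hy⟩ := hcB
      obtain ⟨z, hz⟩ := clp_eq.1 haa.symm
      have h1 : OmType p K ε (a₁ : K₁) := by rw [hz]; exact om_mul_pow ha z
      have h2 : LocS p (up K₁ B.S) (a₁ / (τ : K₁ˣ)) := by
        have h3 := (Pool.Agent.Helper15.PP.gZ p _).mul_mem (Pool.Agent.Helper15.PP.mem_gZ.2 hl)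
          (Pool.Agent.Helper15.PP.mem_gZ.2 (locS_pow (p := p) (Z := up K₁ B.S) z))
        have h4 : a₁ / (τ : K₁ˣ) = a / τ * z ^ p := by rw [hz, mul_div_right_comm]
        rw [h4]
        exact Pool.Agent.Helper15.PP.mem_gZ.1 h3
      have h5 := hSEL p ℂ_[p] K M K₁ M₁ J M₂ ε δ P a₀ hs L T B D τ n (E τ) (hF₀1 τ) a₁ h1 h2
        ⟨y, hsel, hy⟩
      rw [hz, lab_mul_pow] at h5
      exact h5)
    g Kc c' X' θ hc' hθ hKc0
    (fun τ X hX => by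
      obtain ⟨h1, h2⟩ := (hS τ).1 X hX
      refine ⟨sub_fin h1, ?_⟩
      rw [e1]
      refine h2.trans ?_
      refine mul_le_mul_of_nonneg_right ((le_max_right _ _).trans (hKc τ)) ?_
      exact mul_nonneg hX.le (zero_le_one.trans (hslow.one X)))
    (fun τ X hX hX1 => by
      rw [e1]
      refine le_trans ?_ ((hS τ).2.1 X hX ((hX' τ).trans hX1))
      refine mul_le_mul_of_nonneg_right (hcc τ) ?_
      exact mul_nonneg hX.le (zero_le_one.trans (hslow.one X)))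
    (fun η hη => by
      have h1 : ∀ τ : F₀, _ := fun τ => (hS τ).2.2 η hη
      choose X₀ hX₀ using h1
      refine ⟨∑ τ, |X₀ τ|, fun τ X hX => ?_⟩
      rw [e1, e2]
      exact hX₀ τ X (((le_abs_self _).trans (Finset.single_le_sum (f := fun τ => |X₀ τ|)
        (fun i _ => abs_nonneg _) (Finset.mem_univ τ))).trans hX))

/-- **N_MOMW**. -/
theorem n_momw : Pool.Agent.Helper38.ND.N_MOMW := by
  intro hABS p _ L K M K₁ M₁ J M₂ _ _ _ _ _ _ _ _ _ _ _ _ _ _ _ _ _ _ _ _ _ _ _ ε δ P _ a₀ hs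
    T B D g K₀ hslow θ hθ n hE
  exact momWN hABS Pool.Agent.Helper42.PB.v_lab Pool.Agent.Helper42.PB.v_sel L hs T B D g K₀ hslow
    θ hθ n hE

end Pool.Agent.Helper86.ND
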